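import Mathlib
import Pool.Agent.helper26.Env.Glb

/-!
# The Riesz measure of the lower envelope of delta-subharmonic functions

For all `n`, every domain `Ω` of `ℝⁿ`, every `m ≥ 2` and all delta-subharmonic functions
`w₁, …, w_m` on `Ω` we prove `μ[⋀ w_j] ≥ ⋀_{j < k} μ[w_j ∧ w_k]`.

Signed Radon measures on `Ω` are written as `P - N` with positive measures `P`, `N` that are finite
on compact subsets of `Ω`, and the normalising constant of the Riesz measure is `1`. The definitions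
are made for a Euclidean space `E`; in the theorem `E` is `ℝⁿ`.
-/

set_option autoImplicit false

namespace Pool.Agent.Results.MP_730047_an.EnvelopeInequality

open MeasureTheory Set
open scoped ContDiff

variable {E : Type*} [NormedAddCommGroup E] [InnerProductSpace ℝ E] [FiniteDimensional ℝ E]
  [MeasurableSpace E] [BorelSpace E]

/-- `u : Ω → [-∞, ∞)` is subharmonic and not identically `-∞`: it is upper semicontinuous and
satisfies `u x * |B| ≤ ∫_B u` for every closed ball `B ⊆ Ω` with centre `x`. The latter is written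
as `∫_B (M - u) ≤ (M - u x) * |B|` for all real upper bounds `M` of `u` on `B` (they exist by upper
semicontinuity), so that only nonnegative functions are integrated. -/
structure Subharmonic (Ω : Set E) (u : E → EReal) : Prop where
  usc : UpperSemicontinuousOn u Ω
  lt_top : ∀ x ∈ Ω, u x < ⊤
  mean : ∀ x r, 0 < r → Metric.closedBall x r ⊆ Ω → ∀ M : ℝ,
    (∀ y ∈ Metric.closedBall x r, u y ≤ M) →
    ∫⁻ y in Metric.closedBall x r, ((M : EReal) - u y).toENNReal ≤
      ((M : EReal) - u x).toENNReal * volume (Metric.closedBall x r)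
  ne_bot : ∃ x ∈ Ω, u x ≠ ⊥

/-- `Z` is a polar set in `Ω`: some subharmonic function on `Ω` is `-∞` on `Z ∩ Ω`. -/
def IsPolar (Ω Z : Set E) : Prop :=
  ∃ s : E → EReal, Subharmonic Ω s ∧ ∀ x ∈ Z ∩ Ω, s x = ⊥

/-- `w = u - v` on `Ω` off a polar set, with `u`, `v` subharmonic on `Ω`. -/
def DeltaSubharmonic (Ω : Set E) (w : E → ℝ) : Prop :=
  ∃ u v : E → EReal, Subharmonic Ω u ∧ Subharmonic Ω v ∧ ∃ Z, IsPolar Ω Z ∧
    ∀ x ∈ Ω \ Z, (w x : EReal) = u x - v x

/-- The positive measure `a` is finite on the compact subsets of `Ω`. -/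
def RadonOn (Ω : Set E) (a : Measure E) : Prop := ∀ K ⊆ Ω, IsCompact K → a K < ⊤

/-- `w` is locally integrable on `Ω` and its distributional Laplacian on `Ω` is the signed Radon
measure `P - N`; that is, `μ[w] = P - N`. -/
structure IsRiesz (Ω : Set E) (w : E → ℝ) (P N : Measure E) : Prop where
  locInt : LocallyIntegrableOn w Ω
  radonP : RadonOn Ω P
  radonN : RadonOn Ω N
  lap : ∀ φ : E → ℝ, ContDiff ℝ ∞ φ → HasCompactSupport φ → tsupport φ ⊆ Ω →
    ∫ x, w x * Laplacian.laplacian φ x = ∫ x, φ x ∂P - ∫ x, φ x ∂N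

/-- `a - b ≤ P - N` as signed Radon measures on `Ω`: the inequality holds on all Borel sets that are
contained in a compact subset of `Ω`. -/
def MeasLE (Ω : Set E) (a b P N : Measure E) : Prop :=
  ∀ K ⊆ Ω, IsCompact K → ∀ B ⊆ K, MeasurableSet B → a.real B - b.real B ≤ P.real B - N.real B

/-- The signed Radon measure `I - J` is the greatest lower bound of the signed Radon measures
`P j k - N j k`, `j < k`. -/
structure IsInfimum {m : ℕ} (Ω : Set E) (P N : Fin m → Fin m → Measure E)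
    (I J : Measure E) : Prop where
  radonI : RadonOn Ω I
  radonJ : RadonOn Ω J
  lower : ∀ j k, j < k → MeasLE Ω I J (P j k) (N j k)
  greatest : ∀ a b, RadonOn Ω a → RadonOn Ω b → (∀ j k, j < k → MeasLE Ω a b (P j k) (N j k)) →
    MeasLE Ω a b I J

/-! ## Comparison with the definitions of the helper files -/

open Pool.Agent.helper26 in
theorem Subharmonic.toEnv {Ω : Set E} {u : E → EReal} (h : Subharmonic Ω u) :
    Env.Subharmonic Ω u := ⟨h.usc, h.lt_top, h.mean, h.ne_bot⟩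

open Pool.Agent.helper26 in
theorem DeltaSubharmonic.toEnv {Ω : Set E} {w : E → ℝ} (h : DeltaSubharmonic Ω w) :
    Env.DeltaSubharmonic Ω w := by
  obtain ⟨u, v, hu, hv, Z, ⟨s, hs, hZ⟩, hw⟩ := h
  exact ⟨u, v, hu.toEnv, hv.toEnv, Z, ⟨s, hs.toEnv, hZ⟩, hw⟩

open Pool.Agent.helper26 in
theorem isRiesz_iff {Ω : Set E} {w : E → ℝ} {P N : Measure E} :
    IsRiesz Ω w P N ↔ Env.IsRiesz Ω w P N :=
  ⟨fun h => ⟨h.locInt, h.radonP, h.radonN, fun φ hφ => h.lap φ hφ.smooth hφ.comp hφ.sub⟩,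
    fun h => ⟨h.locInt, h.finP, h.finN, fun φ h1 h2 h3 => h.lap φ ⟨h1, h2, h3⟩⟩⟩

open Pool.Agent.helper26 in
/-- **Theorem.** Let `Ω ⊆ ℝⁿ` be a domain, `m ≥ 2`, and let `w₁, …, w_m` be delta-subharmonic on
`Ω` (in the classical sense, or in the sense that the distributional Laplacian is a signed Radon
measure). Then all `w_j ∧ w_k` and `⋀ w_j` have Riesz measures, and if `P j k - N j k` is the Riesz
measure of `w_j ∧ w_k` for `j < k` and `P₀ - N₀` is the Riesz measure of `⋀ w_j`, then the greatest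
lower bound `I - J` of the `P j k - N j k` exists and `I - J ≤ P₀ - N₀`. -/
theorem result (n m : ℕ) (hm : 2 ≤ m) (Ω : Set (EuclideanSpace ℝ (Fin n))) (hΩ : IsOpen Ω)
    (hc : IsConnected Ω) (w : Fin m → EuclideanSpace ℝ (Fin n) → ℝ)
    (hw : ∀ j, DeltaSubharmonic Ω (w j) ∨ ∃ P N, IsRiesz Ω (w j) P N) :
    (∀ j k, ∃ P N, IsRiesz Ω (fun x => min (w j x) (w k x)) P N) ∧
    (∃ P N, IsRiesz Ω (fun x => ⨅ j, w j x) P N) ∧
    ∀ (P N : Fin m → Fin m → Measure (EuclideanSpace ℝ (Fin n)))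
      (P₀ N₀ : Measure (EuclideanSpace ℝ (Fin n))),
      (∀ j k, j < k → IsRiesz Ω (fun x => min (w j x) (w k x)) (P j k) (N j k)) →
      IsRiesz Ω (fun x => ⨅ j, w j x) P₀ N₀ →
      ∃ I J, IsInfimum Ω P N I J ∧ MeasLE Ω I J P₀ N₀ := by
  have hw' : ∀ j, ∃ P N, Env.IsRiesz Ω (w j) P N := by
    intro j
    rcases hw j with h | ⟨P, N, h⟩
    · exact h.toEnv.exists_riesz hΩ hc.isPreconnected
    · exact ⟨P, N, isRiesz_iff.1 h⟩
  have hne : (Finset.univ : Finset (Fin m)).Nonempty := ⟨⟨0, by omega⟩, Finset.mem_univ _⟩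
  have : Nonempty (Fin m) := ⟨⟨0, by omega⟩⟩
  have hinf : ∀ x, ⨅ j, w j x = Finset.univ.inf' hne (fun j => w j x) := fun x =>
    (Finset.inf'_univ_eq_ciInf _).symm
  simp only [isRiesz_iff, hinf]
  refine ⟨fun j k => ?_, Env.exists_riesz_inf' hΩ w hw' _ hne, fun P N P₀ N₀ h h₀ => ?_⟩
  · obtain ⟨P, N, h1⟩ := hw' j
    obtain ⟨P', N', h2⟩ := hw' k
    obtain ⟨Q, hQ⟩ := Env.exists_riesz_min hΩ h1 h2
    exact ⟨_, Q, hQ⟩
  · -- the greatest lower bound
    obtain ⟨s, hs⟩ : ∃ s : Finset (Fin m × Fin m), s = Finset.univ.filter (fun q => q.1 < q.2) :=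
      ⟨_, rfl⟩
    have hmem : ∀ q : Fin m × Fin m, q ∈ s ↔ q.1 < q.2 := fun q => by simp [hs]
    have hsne : s.Nonempty := ⟨(⟨0, by omega⟩, ⟨1, by omega⟩), by
      rw [hmem]
      simp [Fin.lt_def]⟩
    obtain ⟨I, J, hI, hJ, h1, h2⟩ := Env.glb_fin hΩ s hsne (fun q => P q.1 q.2)
      (fun q => N q.1 q.2) (fun q hq => (h q.1 q.2 ((hmem q).1 hq)).finP)
      (fun q hq => (h q.1 q.2 ((hmem q).1 hq)).finN)
    refine ⟨I, J, ⟨hI, hJ, fun j k hjk => ?_, fun a b ha hb hab => ?_⟩, ?_⟩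
    · exact (Env.signedLE_real hΩ hI hJ (h j k hjk).finP (h j k hjk).finN).1
        (h1 (j, k) ((hmem _).2 hjk))
    · refine (Env.signedLE_real hΩ ha hb hI hJ).1 (h2 a b ha hb fun q hq => ?_)
      have hq' := (hmem q).1 hq
      exact (Env.signedLE_real hΩ ha hb (h _ _ hq').finP (h _ _ hq').finN).2 (hab _ _ hq')
    · refine (Env.signedLE_real hΩ hI hJ h₀.finP h₀.finN).1 ?_
      obtain ⟨m', rfl⟩ : ∃ m', m = m' + 2 := ⟨m - 2, by omega⟩
      refine Env.main_ineq hΩ w hw' hI hJ ?_ m' Finset.univ hne (by simp) P₀ N₀ h₀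
      have key : ∀ j k, j < k → ∀ P' N', Env.IsRiesz Ω (fun x => min (w j x) (w k x)) P' N' →
          Env.SignedLE Ω I J P' N' := by
        intro j k hjk P' N' h'
        have h3 := h1 (j, k) ((hmem _).2 hjk)
        rw [(h j k hjk).signedLE_iff hΩ hI hJ] at h3
        rwa [h'.signedLE_iff hΩ hI hJ]
      intro j k hjk P' N' h'
      rcases lt_or_gt_of_ne hjk with hlt | hlt
      · exact key j k hlt P' N' h'
      · refine key k j hlt P' N' ?_
        convert h' using 2 with x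
        rw [min_comm]

end Pool.Agent.Results.MP_730047_an.EnvelopeInequality
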